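import Mathlib
import Pool.Agent.H756Z.ElaMain

set_option autoImplicit false

open Pool.Agent.H756Z.Ela

namespace Pool.Agent.Results.MP_155d71_an.ANoFixedPoint

/-- Over the real and over the complex scalars the answer to the question is negative. -/
theorem result (𝕜 : Type) [RCLike 𝕜] :
    ¬ ∀ (S : Type) [Semigroup S] [TopologicalSpace S] [T2Space S]
      [SeparatelyContinuousMul S], ExtremelyLeftAmenable S →
      ∀ (E : Type) [NormedAddCommGroup E] [NormedSpace 𝕜 E] [CompleteSpace E] (C : Set E),
        @IsClosed E (weakE 𝕜 E) C →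
        ∀ T : S → C → C, (∀ s t x, T (s * t) x = T s (T t x)) →
          (∀ s x y, ‖(T s x).1 - (T s y).1‖ ≤ ‖x.1 - y.1‖) →
          (∀ x, @Continuous S C _ (weakTop 𝕜 C) fun s => T s x) →
          (∀ s, @Continuous C C (weakTop 𝕜 C) (weakTop 𝕜 C) (T s)) →
          (∃ c : C, @IsCompact E (weakE 𝕜 E)
            (@closure E (weakE 𝕜 E) (Set.range fun s => (T s c).1))) →
          ∃ z : C, ∀ s, T s z = z :=
  main 𝕜

end Pool.Agent.Results.MP_155d71_an.ANoFixedPoint
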